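import Pool.Agent.H92.HB.Stm

/-!
# Module STG
-/

set_option autoImplicit false
set_option linter.all false

open scoped Classical

namespace Pool.Agent.H53.HB

open Pool.Agent.H92.HB

theorem card_ppow {p M : ℕ} (hp : p.Prime) (A : Type) [AddCommGroup A] [Finite A]
    (h : ∀ a : A, (p ^ M : ℕ) • a = 0) : ∃ k, Nat.card A = p ^ k := by
  have : Fact p.Prime := ⟨hp⟩
  have h1 : IsPGroup p (Multiplicative A) := fun a => ⟨M, by
    show Multiplicative.ofAdd ((p ^ M : ℕ) • a.toAdd) = 1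
    rw [h]
    rfl⟩
  obtain ⟨k, hk⟩ := (IsPGroup.iff_card).1 h1
  exact ⟨k, hk⟩

section act

variable {Γ A G : Type} [Group Γ] [AddCommGroup A] [Group G] (π : Γ →* G)
  (hπ : Function.Surjective π) (ρ : Γ → (A →+ A)) (h1 : ∀ a, ρ 1 a = a)
  (hm : ∀ σ τ a, ρ (σ * τ) a = ρ σ (ρ τ a)) (hU : ∀ σ ∈ π.ker, ∀ a, ρ σ a = a)

include hm hU in
theorem rho_congr {σ τ : Γ} (h : π σ = π τ) (a : A) : ρ σ a = ρ τ a := by
  have h2 : τ⁻¹ * σ ∈ π.ker := by
    rw [MonoidHom.mem_ker, map_mul, map_inv, h, inv_mul_cancel]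
  have h3 := hm τ (τ⁻¹ * σ) a
  rw [mul_inv_cancel_left, hU _ h2] at h3
  exact h3

/-- the action of the quotient -/
@[instance_reducible] noncomputable def qAct : DistribMulAction G A where
  smul g a := ρ (Function.surjInv hπ g) a
  one_smul a := by
    show ρ (Function.surjInv hπ 1) a = a
    rw [rho_congr π ρ hm hU (τ := 1) (by rw [Function.surjInv_eq hπ, map_one]), h1]
  mul_smul g h a := by
    show ρ (Function.surjInv hπ (g * h)) a = ρ (Function.surjInv hπ g) (ρ (Function.surjInv hπ h) a)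
    rw [← hm]
    apply rho_congr π ρ hm hU
    rw [map_mul, Function.surjInv_eq hπ, Function.surjInv_eq hπ, Function.surjInv_eq hπ]
  smul_zero g := map_zero _
  smul_add g a b := map_add _ _ _

end act

theorem t_STG (hF : S_FIT) (hP : S_PFIN) (hV : S_VAL) (hA : S_ABS) : S_STG := by
  intro p hp M v Γ T _ _ _ S hT 𝓕 _ _ h𝓕 π hπ hTU hglue hfin hcard
  obtain ⟨ρ, h1, hm, hU, hres, ⟨etop⟩⟩ := hA Γ T S π.ker (by infer_instance) hTU hglue
  letI act : DistribMulAction (𝓕 →* ℂˣ) (S.A π.ker) := qAct π hπ ρ h1 hm hU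
  have hsmul : ∀ (σ : Γ) (a : S.A π.ker), π σ • a = ρ σ a := by
    intro σ a
    show ρ (Function.surjInv hπ (π σ)) a = ρ σ a
    exact rho_congr π ρ hm hU (Function.surjInv_eq hπ _) a
  have hpM : ∀ a : S.A π.ker, (p ^ M : ℕ) • a = 0 := by
    intro a
    obtain ⟨f, rfl⟩ := QuotientAddGroup.mk_surjective a
    have h2 : (p ^ M : ℕ) • f = 0 := by
      apply Subtype.ext
      funext σ
      exact hT _
    rw [← QuotientAddGroup.mk_nsmul, h2]
    rfl
  have hG : IsPGroup p (𝓕 →* ℂˣ) := by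
    obtain ⟨k, hk⟩ := h𝓕
    refine fun g => ⟨k, ?_⟩
    ext x
    rw [MonoidHom.pow_apply, ← map_pow, hk, map_one]
    rfl
  have hGfin : Finite (𝓕 →* ℂˣ) := inferInstance
  have hfix : {a : S.A π.ker | ∀ g : 𝓕 →* ℂˣ, g • a = a} = {a : S.A π.ker | ∀ σ, ρ σ a = a} := by
    ext a
    constructor
    · intro h σ
      rw [← hsmul]
      exact h _
    · intro h g
      obtain ⟨σ, rfl⟩ := hπ g
      rw [hsmul]
      exact h σ
  have hfin1 : Finite {a : S.A π.ker // ∀ σ, ρ σ a = a} := Finite.of_equiv _ etop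
  have hAfin : Finite (S.A π.ker) := hP p hp (𝓕 →* ℂˣ) (S.A π.ker) hG ⟨M, hpM⟩ (by
    rw [hfix]
    exact hfin1)
  obtain ⟨θ, hθ1, hθ⟩ := hF p hp 𝓕 (S.A π.ker) h𝓕 ⟨M, hpM⟩
  -- the number of the fixed classes
  have hc1 : Nat.card (fixD (S.A π.ker) (⊥ : Subgroup 𝓕)) = Nat.card (S.A ⊤) := by
    refine Nat.card_congr (Equiv.trans (Equiv.subtypeEquivRight fun a => ?_) etop.symm)
    constructor
    · intro h σ
      rw [← hsmul]
      exact h _ (fun x hx => by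
        rw [Subgroup.mem_bot.1 hx, map_one])
    · intro h g _
      obtain ⟨σ, rfl⟩ := hπ g
      rw [hsmul]
      exact h σ
  obtain ⟨w, hwv, hw⟩ := (Nat.dvd_prime_pow hp).1 hcard
  refine ⟨θ, fun H hH UH hUH => ?_⟩
  have hUU : π.ker ≤ UH := by
    intro σ hσ
    rw [hUH]
    intro x _
    rw [MonoidHom.mem_ker.1 hσ]
    rfl
  obtain ⟨φ, hφ, hφ2⟩ := hres UH hUU
  have hfinUH : Finite (S.A UH) := Finite.of_injective φ hφ
  refine ⟨hfinUH, ?_⟩
  -- the classes of `UH` are fixed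
  have hmem : ∀ a, φ a ∈ fixD (S.A π.ker) H := by
    intro a g hg
    obtain ⟨σ, rfl⟩ := hπ g
    rw [hsmul]
    exact hφ2 a σ ((hUH σ).2 hg)
  have hdvd : Nat.card (S.A UH) ∣ Nat.card (fixD (S.A π.ker) H) :=
    AddSubgroup.card_dvd_of_injective (φ.codRestrict (fixD (S.A π.ker) H) hmem)
      (fun a b h => hφ (congrArg Subtype.val h))
  obtain ⟨m, hm1, hm2⟩ := hθ H
  obtain ⟨k, hk⟩ := card_ppow (M := M) hp (fixD (S.A π.ker) H) (fun a => Subtype.ext (hpM a.1))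
  have hval := hV p hp w v hwv H (fun x => ev θ (x : 𝓕)) (fun x => by
    obtain ⟨y, hy⟩ := hH x.1 x.2
    refine ⟨y, ?_⟩
    rw [hy, hθ1, hc1, hw]
    push_cast
    rfl) m hm1 (Nat.card (fixD (S.A π.ker) H)) ⟨k, by rw [hk]⟩ hm2
  exact hdvd.trans (hval.trans (pow_dvd_pow p (Nat.mul_le_mul_right _ hwv)))

end Pool.Agent.H53.HB
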