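import Pool.Agent.H92.HB.Stm2
import Pool.Agent.H53.HB.STG

/-!
# Module FIT
-/

set_option autoImplicit false
set_option linter.all false

open scoped Classical

namespace Pool.Agent.H53.HB

open Pool.Agent.H92.HB

theorem sum_mapD {G G' V : Type} [Fintype G] [Fintype G'] [AddCommGroup V] (r : G → G')
    (c : G →₀ ℤ) (Φ : G' → V) :
    ∑ h, (c.mapDomain r) h • Φ h = ∑ g, c g • Φ (r g) := by
  have h1 := Finsupp.sum_mapDomain_index (f := r) (s := c) (h := fun h (n : ℤ) => n • Φ h)
    (by simp) (by intros; rw [add_smul])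
  rw [Finsupp.sum_fintype _ _ (by simp), Finsupp.sum_fintype _ _ (by simp)] at h1
  exact h1

theorem det_mapD {G G' : Type} [CommGroup G] [CommGroup G'] (r : G →* G') {n : ℕ}
    (M : Matrix (Fin n) (Fin n) (MonoidAlgebra ℤ G)) :
    (M.map (MonoidAlgebra.mapDomainRingHom ℤ r)).det =
      MonoidAlgebra.mapDomainRingHom ℤ r M.det := by
  have h := RingHom.map_det (MonoidAlgebra.mapDomainRingHom ℤ r) M
  exact h.symm

theorem t_FIT (hR : S_REL) (hC : S_CNT) (hN : S_NRM) : S_FIT := by
  intro p hp 𝓕 _ _ A _ _ _ h𝓕 hA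
  letI : Fintype (𝓕 →* ℂˣ) := Fintype.ofFinite _
  have hG : IsPGroup p (𝓕 →* ℂˣ) := by
    obtain ⟨k, hk⟩ := h𝓕
    refine fun g => ⟨k, ?_⟩
    ext x
    rw [MonoidHom.pow_apply, ← map_pow, hk, map_one]
    rfl
  obtain ⟨n, y, M, hsep, hrel, haug⟩ := hR p hp (𝓕 →* ℂˣ) A hG hA
  refine ⟨fun g => M.det.coeff g, ?_, fun H => ?_⟩
  · unfold ev
    rw [finsum_eq_sum_of_fintype]
    have h1 : ∑ i : 𝓕 →* ℂˣ, (M.det.coeff i : ℂ) * ((i 1 : ℂˣ) : ℂ) =
        ((∑ g : 𝓕 →* ℂˣ, M.det.coeff g : ℤ) : ℂ) := by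
      push_cast
      refine Finset.sum_congr rfl fun g _ => ?_
      rw [map_one, Units.val_one, mul_one]
    rw [h1, haug]
    have h2 : Nat.card {a : A // ∀ g : 𝓕 →* ℂˣ, g • a = a} =
        Nat.card (fixD A (⊥ : Subgroup 𝓕)) := by
      refine Nat.card_congr (Equiv.subtypeEquivRight fun a => ?_)
      constructor
      · intro h g _
        exact h g
      · intro h g
        exact h g (fun x hx => by rw [Subgroup.mem_bot.1 hx, map_one])
    rw [h2]
    push_cast
    rfl
  · let r : (𝓕 →* ℂˣ) →* (H →* ℂˣ) := MonoidHom.domRestrictHom H ℂˣ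
    have hr : Function.Surjective r := MonoidHom.domRestrict_surjective ℂ H
    have hrx : ∀ (g : 𝓕 →* ℂˣ) (x : H), r g x = g x := fun g x => rfl
    have hB : ∀ (g : 𝓕 →* ℂˣ) (a : A), a ∈ fixD A H → g • a ∈ fixD A H := by
      intro g a ha g' hg'
      have h1 : g' • g • a = g • g' • a := by
        rw [smul_smul, smul_smul]
        have h2 : g' * g = g * g' := mul_comm g' g
        exact congrArg (fun u : 𝓕 →* ℂˣ => u • a) h2
      rw [h1, ha g' hg']
    let ρ : (𝓕 →* ℂˣ) → (fixD A H →+ fixD A H) := fun g =>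
      { toFun := fun a => ⟨g • a.1, hB g a.1 a.2⟩
        map_zero' := Subtype.ext (smul_zero g)
        map_add' := fun a b => Subtype.ext (smul_add g _ _) }
    have hU : ∀ g ∈ r.ker, ∀ a, ρ g a = a := by
      intro g hg a
      apply Subtype.ext
      refine a.2 g fun x hx => ?_
      have := DFunLike.congr_fun (MonoidHom.mem_ker.1 hg) ⟨x, hx⟩
      exact this
    letI : Fintype (H →* ℂˣ) := Fintype.ofFinite _
    letI act : DistribMulAction (H →* ℂˣ) (fixD A H) := qAct r hr ρ
      (fun a => Subtype.ext (one_smul _ _)) (fun g h a => Subtype.ext (mul_smul g h a.1)) hU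
    have hsmul : ∀ (g : 𝓕 →* ℂˣ) (a : fixD A H), ((r g • a : fixD A H) : A) = g • a.1 := by
      intro g a
      show ((ρ (Function.surjInv hr (r g)) a : fixD A H) : A) = _
      rw [rho_congr r ρ (fun g h a => Subtype.ext (mul_smul g h a.1)) hU (τ := g)
        (Function.surjInv_eq hr _)]
      rfl
    have hcnt := hC (H →* ℂˣ) (fixD A H) n (fun i => (y i).comp (fixD A H).subtype)
      (M.map (MonoidAlgebra.mapDomainRingHom ℤ r)) (by
        intro a ha
        apply Subtype.ext
        apply hsep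
        intro i g
        have := ha i (r g)
        rw [AddMonoidHom.comp_apply] at this
        rw [← hsmul]
        exact this) (by
        intro i a
        rw [← hrel i a.1]
        refine Finset.sum_congr rfl fun j _ => ?_
        have h1 := sum_mapD (r : (𝓕 →* ℂˣ) → (H →* ℂˣ)) (M i j).coeff
          (fun h => (y j) ((h • a : fixD A H) : A))
        have h2 : ∀ g : 𝓕 →* ℂˣ, (y j) ((r g • a : fixD A H) : A) = y j (g • a.1) := by
          intro g
          rw [hsmul]
        simp only [h2] at h1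
        exact h1)
    refine ⟨_, ?_, hcnt⟩
    rw [hN]
    refine finprod_eq_of_bijective (CommGroup.monoidHomMonoidHomEquiv H ℂ)
      (CommGroup.monoidHomMonoidHomEquiv H ℂ).bijective fun χ => ?_
    have hdet : (M.map (MonoidAlgebra.mapDomainRingHom ℤ r)).det =
        MonoidAlgebra.mapDomainRingHom ℤ r M.det := det_mapD r M
    rw [hdet]
    unfold ev
    rw [finsum_eq_sum_of_fintype]
    have h1 := sum_mapD (r : (𝓕 →* ℂˣ) → (H →* ℂˣ)) M.det.coeff
      (fun h => ((χ h : ℂˣ) : ℂ))
    simp only [zsmul_eq_mul] at h1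
    refine Eq.trans h1 ?_
    refine Finset.sum_congr rfl fun g _ => ?_
    have h2 := CommGroup.apply_monoidHomMonoidHomEquiv ℂ (r g) χ
    rw [← h2]
    rfl

end Pool.Agent.H53.HB
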